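import Pool.Agent.W763.PB.Stm

/-! Project PB: J1, `J` is isometric. -/

set_option autoImplicit false

open scoped InnerProductSpace

namespace Pool.Agent.W577.PB

open Pool.Agent.W763.PB

theorem j1 : S_R2 → S_Z1 → S_J1 := by
  intro _ hZ k b m _ _ hk hb H _ _ _ U
  have h1 : ∀ x, ‖Jop k b m U x‖ = ‖x‖ := by
    intro x
    have h2 : ‖Jop k b m U x‖ ^ 2 = ‖x‖ ^ 2 := by
      rw [PiLp.norm_sq_eq_of_L2]
      have h3 : ∀ t : ZMod (b * m), ‖(Jop k b m U x) t‖ ^ 2 = (Om k b m t) ^ 2 * ‖x‖ ^ 2 := by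
        intro t
        rw [Jop_apply, norm_smul, Complex.norm_real, mul_pow, Real.norm_eq_abs, sq_abs,
          LinearIsometryEquiv.norm_map]
      rw [Finset.sum_congr rfl fun t _ => h3 t, ← Finset.sum_mul, hZ k b m hk hb, one_mul]
    exact (pow_left_inj₀ (norm_nonneg _) (norm_nonneg _) two_ne_zero).mp h2
  have h2 := (ContinuousLinearMap.norm_map_iff_adjoint_comp_self (Jop k b m U)).mp h1
  have h4 : ∀ x, ContinuousLinearMap.adjoint (Jop k b m U) (Jop k b m U x) = x := by
    intro x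
    have := congrArg (fun T : H →L[ℂ] H => T x) h2
    exact this
  have h5 : ‖Jop k b m U‖ ≤ 1 :=
    ContinuousLinearMap.opNorm_le_bound _ zero_le_one fun x => by rw [h1 x, one_mul]
  refine ⟨h1, h4, ?_, ?_, ?_⟩
  · intro F
    rw [h1]
    have h6 := ContinuousLinearMap.le_opNorm (ContinuousLinearMap.adjoint (Jop k b m U)) F
    rw [LinearIsometryEquiv.norm_map] at h6
    calc _ ≤ ‖Jop k b m U‖ * ‖F‖ := h6
      _ ≤ 1 * ‖F‖ := mul_le_mul_of_nonneg_right h5 (norm_nonneg _)
      _ = ‖F‖ := one_mul _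
  · intro x
    ext t
    rw [Dg_apply, Jop_apply]
    unfold ee Om
    split_ifs with h
    · simp
    · simp
  · intro x
    ext t
    rw [Dg_apply, Jop_apply]
    unfold sw Om
    split_ifs with h
    · simp
    · simp

end Pool.Agent.W577.PB

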